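import Pool.Agent.U281.EqEhr.Final

/-!
# A polynomial equivariant H*-series that is not effective

The group of order two acts on a 6-dimensional lattice polytope with 8 lattice points (all of them
vertices) such that the equivariant `H*`-series is the polynomial with values
`H*(1) = 1 + t + 2 t^3` and `H*(g) = 1 - t + 2 t^2` at the two group elements. Its coefficient of
`t^2` has the values `0` and `2`, so it is not the character of a representation.

The polytope: the join of a unit square and a 3-simplex `conv (u₁, u₂, u₃, u₄)`, with the lattice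
generated by the vertices and by the additional vector `(1/2) (u₁ + u₂ + u₃ + u₄)` plus half of the
horizontal side of the square. The involution reflects the square horizontally.
-/

set_option autoImplicit false

open scoped Pointwise

namespace Pool.Agent.Results.MP_3885fd_co.PolynomialNotEffective

/-- An integer point as a real point. -/
def toReal {d : ℕ} (u : Fin d → ℤ) : Fin d → ℝ := fun i => (u i : ℝ)

/-- The lattice polytope spanned by the finite set `V` of lattice points: its convex hull. -/
def polytope {d : ℕ} (V : Finset (Fin d → ℤ)) : Set (Fin d → ℝ) :=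
  convexHull ℝ (toReal '' (V : Set (Fin d → ℤ)))

/-- An action of `G` on the lattice `ℤ^d` by affine automorphisms `u ↦ A u + b`. -/
abbrev LatticeAction (G : Type) [Group G] (d : ℕ) : Type := G →* ((Fin d → ℤ) ≃ᵃ[ℤ] (Fin d → ℤ))

section

variable {G : Type} [Group G] {d : ℕ}

/-- `V` spans a full-dimensional lattice polytope and is invariant under the action. -/
def IsInvariantPolytope (V : Finset (Fin d → ℤ)) (ρ : LatticeAction G d) : Prop :=
  (interior (polytope V)).Nonempty ∧ ∀ g, ∀ v ∈ V, ρ g v ∈ V

/-- Let `ρ` be an action of `G` on the lattice `ℤ^d` by affine automorphisms. The action of `g` on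
the lattice points of the `m`-th dilate of an invariant polytope: if `ρ g` is `u ↦ A u + b` then
this is `u ↦ A u + m b`. -/
def dilateAction (ρ : LatticeAction G d) (m : ℕ) (g : G) (u : Fin d → ℤ) :
    Fin d → ℤ :=
  (ρ g).linear u + (m : ℤ) • (ρ g 0)

/-- The value at `g` of the permutation character of `G` on the lattice points of `m P`: the number
of fixed lattice points. -/
noncomputable def chi (V : Finset (Fin d → ℤ)) (ρ : LatticeAction G d) (m : ℕ)
    (g : G) : ℕ :=
  Set.ncard {u : Fin d → ℤ | toReal u ∈ (m : ℝ) • polytope V ∧ dilateAction ρ m g u = u}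

/-- The matrix of the linear part of `ρ g`. -/
noncomputable def linMatrix (ρ : LatticeAction G d) (g : G) :
    Matrix (Fin d) (Fin d) ℤ :=
  LinearMap.toMatrix' ((ρ g).linear : (Fin d → ℤ) →ₗ[ℤ] (Fin d → ℤ))

/-- The value at `g` of the equivariant `H*`-series:
`(∑ χ_{mP}(g) t^m) (1 - t) det (I - t ρ(g))`. -/
noncomputable def Hstar (V : Finset (Fin d → ℤ)) (ρ : LatticeAction G d)
    (g : G) : PowerSeries ℤ :=
  PowerSeries.mk (fun m => (chi V ρ m g : ℤ)) * ((1 - PowerSeries.X) *
    ((Matrix.det (1 - (Polynomial.X : Polynomial ℤ) • (linMatrix ρ g).map Polynomial.C) :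
      Polynomial ℤ) : PowerSeries ℤ))

/-- The coefficient `H*_i` of the equivariant `H*`-series, as a function on `G`. -/
noncomputable def coeffH (V : Finset (Fin d → ℤ)) (ρ : LatticeAction G d) (i : ℕ) (g : G) : ℤ :=
  PowerSeries.coeff i (Hstar V ρ g)

/-- The `H*`-series is a polynomial: only finitely many of its coefficients, which are class
functions on `G`, are nonzero. -/
def IsPolynomial (V : Finset (Fin d → ℤ)) (ρ : LatticeAction G d) : Prop :=
  ∃ N : ℕ, ∀ i : ℕ, N ≤ i → ∀ g : G, coeffH V ρ i g = 0

/-- The function `f` on `G` is the character of a finite-dimensional complex representation. -/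
def IsCharacter (f : G → ℤ) : Prop :=
  ∃ (E : Type) (_ : AddCommGroup E) (_ : Module ℂ E) (_ : FiniteDimensional ℂ E)
    (τ : Representation ℂ G E), ∀ g : G, LinearMap.trace ℂ E (τ g) = (f g : ℂ)

/-- The `H*`-series is effective: every coefficient is the character of a representation. -/
def IsEffective (V : Finset (Fin d → ℤ)) (ρ : LatticeAction G d) : Prop :=
  ∀ i : ℕ, IsCharacter (coeffH V ρ i)

end

/-- The assertion of Q1: for every finite group and every invariant lattice polytope, if the
`H*`-series is a polynomial then it is effective. -/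
def PolynomialImpliesEffective : Prop :=
  ∀ (G : Type) (_ : Group G) (_ : Finite G) (d : ℕ) (V : Finset (Fin d → ℤ))
    (ρ : LatticeAction G d), IsInvariantPolytope V ρ → IsPolynomial V ρ → IsEffective V ρ

/-! ### The example -/

open Pool.Agent.U281.EqEhr Finset

/-- the vertices -/
def W6 : Fin 8 → (Fin 6 → ℤ) := fun i j => W i j.castSucc

/-- the set of vertices -/
def V6 : Finset (Fin 6 → ℤ) := Finset.univ.image W6

/-- the involution as a linear automorphism of `ℤ^6` -/
def lin6 : (Fin 6 → ℤ) ≃ₗ[ℤ] (Fin 6 → ℤ) where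
  toFun x := ![x 2 - x 0 - x 3, x 1, x 2, x 3, x 4, x 5]
  invFun x := ![x 2 - x 0 - x 3, x 1, x 2, x 3, x 4, x 5]
  map_add' a b := by
    funext i
    fin_cases i <;> simp
    ring
  map_smul' a b := by
    funext i
    fin_cases i <;> simp
    ring
  left_inv a := by
    funext i
    fin_cases i <;> simp
    ring
  right_inv a := by
    funext i
    fin_cases i <;> simp
    ring

/-- the involution as an affine automorphism of `ℤ^6` -/
def aff6 : (Fin 6 → ℤ) ≃ᵃ[ℤ] (Fin 6 → ℤ) := lin6.toAffineEquiv

theorem aff6_sq : aff6 * aff6 = 1 := by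
  ext x i
  change lin6 (lin6 x) i = x i
  fin_cases i <;> simp [lin6]
  ring

/-- the action of the group of order two -/
def act : LatticeAction ℤˣ 6 := homOf aff6 aff6_sq

theorem act_neg : act (-1) = aff6 := rfl

theorem invariant (g : ℤˣ) (v : Fin 6 → ℤ) (hv : v ∈ V6) : act g v ∈ V6 := by
  rcases Int.units_eq_one_or g with rfl | rfl
  · rw [map_one]
    exact hv
  · rw [act_neg]
    rw [V6, Finset.mem_image] at hv
    obtain ⟨i, -, rfl⟩ := hv
    revert i
    decide

/-- the projection that forgets the last coordinate -/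
def proj6 : (Fin 7 → ℝ) →ₗ[ℝ] (Fin 6 → ℝ) := LinearMap.funLeft ℝ ℝ Fin.castSucc

theorem proj6_PP : proj6 '' PP = polytope V6 := by
  rw [PP, LinearMap.image_convexHull, polytope]
  congr 1
  ext x
  constructor
  · rintro ⟨_, ⟨v, hv, rfl⟩, rfl⟩
    have hv' : v ∈ VV := hv
    rw [VV, Finset.mem_image] at hv'
    obtain ⟨i, -, rfl⟩ := hv'
    exact ⟨W6 i, by simp [V6], rfl⟩
  · rintro ⟨v, hv, rfl⟩
    have hv' : v ∈ V6 := hv
    rw [V6, Finset.mem_image] at hv'
    obtain ⟨i, -, rfl⟩ := hv'
    exact ⟨toR (W i), ⟨W i, by simp [VV], rfl⟩, rfl⟩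

theorem mem_dil6 (m : ℕ) (u : Fin 6 → ℤ) :
    toReal u ∈ (m : ℝ) • polytope V6 ↔ InDil m (Fin.snoc u (m : ℤ)) := by
  rw [← mem_dil_iff, ← proj6_PP]
  constructor
  · rintro ⟨_, ⟨p, hp, rfl⟩, h⟩
    refine ⟨p, hp, ?_⟩
    have h6 := height_of_mem 1 p (by simpa using hp)
    funext j
    refine Fin.lastCases ?_ (fun j => ?_) j
    · change (m : ℝ) * p 6 = ((Fin.snoc u (m : ℤ) : Fin 7 → ℤ) (Fin.last 6) : ℝ)
      rw [h6, Fin.snoc_last]
      simp
    · have := congrFun h j
      change (m : ℝ) * p j.castSucc = _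
      change (m : ℝ) * p j.castSucc = toReal u j at this
      rw [this]
      simp [toR, toReal]
  · rintro ⟨p, hp, h⟩
    refine ⟨proj6 p, ⟨p, hp, rfl⟩, ?_⟩
    funext j
    have := congrFun h j.castSucc
    change (m : ℝ) * p j.castSucc = toR (Fin.snoc u (m : ℤ)) j.castSucc at this
    change (m : ℝ) * p j.castSucc = _
    rw [this]
    simp [toR, toReal]

theorem full_dim : (interior (polytope V6)).Nonempty := by
  rw [polytope, interior_convexHull_nonempty_iff_affineSpan_eq_top]
  have hmem : ∀ i, toReal (W6 i) ∈ toReal '' (V6 : Set (Fin 6 → ℤ)) :=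
    fun i => ⟨W6 i, by simp [V6], rfl⟩
  have hne : (toReal '' (V6 : Set (Fin 6 → ℤ))).Nonempty := ⟨_, hmem 0⟩
  rw [AffineSubspace.affineSpan_eq_top_iff_vectorSpan_eq_top_of_nonempty ℝ _ _ hne,
    eq_top_iff]
  intro y _
  have hd : ∀ i j, toReal (W6 i) - toReal (W6 j) ∈
      vectorSpan ℝ (toReal '' (V6 : Set (Fin 6 → ℤ))) :=
    fun i j => vsub_mem_vectorSpan ℝ (hmem i) (hmem j)
  have hx : y = ((y 0 : ℝ) + y 3 / 2) • (toReal (W6 1) - toReal (W6 0)) +
      (y 1 : ℝ) • (toReal (W6 2) - toReal (W6 0)) + (y 2 : ℝ) • (toReal (W6 0) - toReal (W6 7)) +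
      ((y 3 : ℝ) / 2) • (toReal (W6 4) - toReal (W6 7)) +
      ((y 4 : ℝ) + y 3 / 2) • (toReal (W6 5) - toReal (W6 7)) +
      ((y 5 : ℝ) + y 3 / 2) • (toReal (W6 6) - toReal (W6 7)) := by
    funext j
    fin_cases j <;> simp [toReal, W6, W]
  rw [hx]
  exact Submodule.add_mem _ (Submodule.add_mem _ (Submodule.add_mem _ (Submodule.add_mem _
    (Submodule.add_mem _ (Submodule.smul_mem _ _ (hd _ _)) (Submodule.smul_mem _ _ (hd _ _)))
    (Submodule.smul_mem _ _ (hd _ _))) (Submodule.smul_mem _ _ (hd _ _)))
    (Submodule.smul_mem _ _ (hd _ _))) (Submodule.smul_mem _ _ (hd _ _))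

/-- dropping the height is injective on the lattice points of a dilate -/
theorem ncard_eq (m : ℕ) (S : Finset (Fin 7 → ℤ)) (T : Set (Fin 6 → ℤ))
    (hS : ∀ p ∈ S, p 6 = m) (h : ∀ u : Fin 6 → ℤ, u ∈ T ↔ Fin.snoc u (m : ℤ) ∈ S) :
    T.ncard = S.card := by
  have : (S : Set (Fin 7 → ℤ)) = (fun u : Fin 6 → ℤ => (Fin.snoc u (m : ℤ) : Fin 7 → ℤ)) '' T := by
    ext p
    constructor
    · intro hp
      have hsn : Fin.snoc (fun j : Fin 6 => p j.castSucc) (m : ℤ) = p := by
        funext j
        refine Fin.lastCases ?_ (fun j => ?_) j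
        · rw [Fin.snoc_last]
          exact (hS p hp).symm
        · rw [Fin.snoc_castSucc]
      refine ⟨fun j => p j.castSucc, ?_, hsn⟩
      rw [h, hsn]
      exact hp
    · rintro ⟨u, hu, rfl⟩
      exact (h u).1 hu
  rw [← Set.ncard_coe_finset, this, Set.ncard_image_of_injective]
  intro u v huv
  funext j
  have := congrFun huv j.castSucc
  simpa using this

theorem chi_one (m : ℕ) : chi V6 act m 1 = (allPts m).card := by
  apply ncard_eq m
  · intro p hp
    rw [mem_allPts] at hp
    exact hp.1
  · intro u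
    rw [Set.mem_ofPred_eq, mem_allPts, mem_dil6]
    have e : dilateAction act m 1 u = u := by
      rw [dilateAction, map_one]
      change u + (m : ℤ) • (0 : Fin 6 → ℤ) = u
      rw [smul_zero, add_zero]
    simp [e]

theorem chi_neg (m : ℕ) : chi V6 act m (-1) = (fixPts m).card := by
  apply ncard_eq m
  · intro p hp
    rw [mem_fixPts] at hp
    exact hp.1.1
  · intro u
    rw [Set.mem_ofPred_eq, mem_fixPts, mem_dil6]
    apply and_congr Iff.rfl
    have e : dilateAction act m (-1) u = ![u 2 - u 0 - u 3, u 1, u 2, u 3, u 4, u 5] := by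
      rw [dilateAction, act_neg]
      have h0 : aff6 0 = 0 := by
        change lin6 0 = 0
        exact map_zero _
      rw [h0, smul_zero, add_zero]
      rfl
    rw [e]
    constructor
    · intro h
      exact congrFun h 0
    · intro h
      funext i
      fin_cases i
      · exact h
      all_goals rfl

theorem linMatrix_one : linMatrix act 1 = 1 := by
  rw [linMatrix, map_one]
  exact LinearMap.toMatrix'_id

theorem linMatrix_neg : linMatrix act (-1) = SM := by
  rw [linMatrix, act_neg]
  ext i j
  rw [LinearMap.toMatrix'_apply]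
  change lin6 (Pi.single j 1) i = _
  fin_cases i <;> fin_cases j <;> simp [lin6, SM]

theorem Hstar_one : Hstar V6 act 1 = 1 + PowerSeries.X + 2 * PowerSeries.X ^ 3 := by
  rw [Hstar, linMatrix_one, det_one, ← series_all]
  have : (PowerSeries.mk fun m => (chi V6 act m 1 : ℤ)) =
      PowerSeries.mk fun m => ((allPts m).card : ℤ) := by
    ext m
    simp [chi_one]
  rw [this]
  push_cast
  ring

theorem Hstar_neg : Hstar V6 act (-1) = 1 - PowerSeries.X + 2 * PowerSeries.X ^ 2 := by
  rw [Hstar, linMatrix_neg, det_SM, ← series_fix]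
  have : (PowerSeries.mk fun m => (chi V6 act m (-1) : ℤ)) =
      PowerSeries.mk fun m => ((fixPts m).card : ℤ) := by
    ext m
    simp [chi_neg]
  rw [this]
  push_cast
  ring

theorem isPolynomial : IsPolynomial V6 act := by
  refine ⟨4, fun i hi g => ?_⟩
  rw [coeffH]
  rcases Int.units_eq_one_or g with rfl | rfl
  · rw [Hstar_one]
    exact coeff_pol_one i hi
  · rw [Hstar_neg]
    exact coeff_pol_neg i hi

theorem coeffs_one (i : ℕ) : coeffH V6 act i 1 = [1, 1, 0, 2].getD i 0 := by
  rcases Nat.lt_or_ge i 4 with h | h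
  · rw [coeffH, Hstar_one]
    have e : (2 : PowerSeries ℤ) * PowerSeries.X ^ 3 =
      PowerSeries.X ^ 3 + PowerSeries.X ^ 3 := by ring
    rw [e]
    interval_cases i <;>
      simp [PowerSeries.coeff_X_pow, PowerSeries.coeff_one, PowerSeries.coeff_X]
  · rw [coeffH, Hstar_one, coeff_pol_one i h, List.getD_eq_default]
    simpa using h

theorem coeffs_neg (i : ℕ) : coeffH V6 act i (-1) = [1, -1, 2].getD i 0 := by
  rcases Nat.lt_or_ge i 4 with h | h
  · rw [coeffH, Hstar_neg]
    have e : (2 : PowerSeries ℤ) * PowerSeries.X ^ 2 =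
      PowerSeries.X ^ 2 + PowerSeries.X ^ 2 := by ring
    rw [e]
    interval_cases i <;>
      simp [PowerSeries.coeff_X_pow, PowerSeries.coeff_one, PowerSeries.coeff_X]
  · rw [coeffH, Hstar_neg, coeff_pol_neg i h, List.getD_eq_default]
    simp
    omega

theorem not_isCharacter : ¬ IsCharacter (coeffH V6 act 2) := by
  rintro ⟨E, i1, i2, i3, τ, h⟩
  have h1 := h 1
  rw [coeffs_one] at h1
  simp only [map_one] at h1
  rw [LinearMap.trace_one] at h1
  have hfin : Module.finrank ℂ E = 0 := by
    simp at h1
    exact h1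
  have hsub : Subsingleton E := Module.finrank_zero_iff.1 hfin
  have h2 := h (-1)
  rw [coeffs_neg] at h2
  have h3 : τ (-1) = 0 := by
    ext x
    exact Subsingleton.elim _ _
  rw [h3, map_zero] at h2
  norm_num at h2

/-- **Negative answer to Q1.** There is a 6-dimensional lattice polytope, invariant under an action
of the group of order two by (affine) automorphisms of the lattice `ℤ^6`, whose equivariant
`H*`-series is the polynomial with values `1 + t + 2 t^3` at the identity and `1 - t + 2 t^2` at the
other group element; its coefficient of `t^2` is not the character of a representation. So it is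
not true that a polynomial `H*`-series is always effective. -/
theorem result :
    (∃ (V : Finset (Fin 6 → ℤ)) (ρ : LatticeAction ℤˣ 6), IsInvariantPolytope V ρ ∧
      (∀ i, coeffH V ρ i 1 = [1, 1, 0, 2].getD i 0 ∧ coeffH V ρ i (-1) = [1, -1, 2].getD i 0) ∧
      IsPolynomial V ρ ∧ ¬ IsCharacter (coeffH V ρ 2)) ∧
    ¬ PolynomialImpliesEffective :=
  ⟨⟨V6, act, ⟨full_dim, invariant⟩, fun i => ⟨coeffs_one i, coeffs_neg i⟩, isPolynomial,
    not_isCharacter⟩, fun h => not_isCharacter
      (h ℤˣ inferInstance inferInstance 6 V6 act ⟨full_dim, invariant⟩ isPolynomial 2)⟩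

end Pool.Agent.Results.MP_3885fd_co.PolynomialNotEffective
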